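import Pool.Agent.T2h93.B.As
import Pool.Agent.T2h93.B.Om

/-!
# The p-part of the Birch and Swinnerton-Dyer conjecture over abelian p-extensions of imaginary quadratic fields

`K` is an imaginary quadratic field of class number one, `p` is an odd prime, `W` is a Weierstrass equation with
coefficients in the ring of integers `𝓞` of `K`, minimal at all places, of an elliptic curve `E`, with discriminant
`Δ`, and `f` is a Bianchi newform with rational eigenvalues over `K` which belongs to `E`.  Suppose that the `p`-part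
of the conjecture of Birch and Swinnerton-Dyer holds for `E` over `K` and its terms (the order of `Ш(E/K)[p^∞]`, the
product of the Tamagawa numbers, the order of `E(K)_tors`) are prime to `p`; and that the value `Φ(0)` of the
primitive `Φ` of the harmonic differential of `f` at the cusp `0` is not in `p Λ`, where `Λ ≅ ℤ` is the group of the
values of `Φ` at the cusps `x/m`, `m` prime to the level.  (For a given `E` with `L(E/K, 1) ≠ 0`, for which the
conjecture holds over `K`, these conditions hold for all but finitely many `p`.)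

A place `v` of `K` is admissible if `v ∤ 6 p Δ`, `N(v) ≡ 1 mod p` and `p ∤ #E(k_v)`, `k_v` the residue field.
Let `F` be the class field over `K` of a group of characters of `p`-power order whose conductors are products of
different admissible places, and let the places `v ∣ 6 p Δ` of `K` split completely in `F`.  There is no bound for the
degree, the exponent or the number of ramified places of `F`.

Theorem: the `p`-part of the conjecture of Birch and Swinnerton-Dyer holds for `E` over `F`, again with all terms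
prime to `p`: the `L`-function of `E/F` is entire, its order at `s = 1` and the rank of `E(F)` are zero, `Ш(E/F)[p^∞]`
is trivial, and `L(E/F, 1) √|Δ_F| / Ω_(E/F)` is a rational number with the same `p`-adic valuation (zero) as
`#Ш(E/F)[p^∞] Tam(E/F) / #E(F)_tors²`.

The proof.  Algebraic side: if `Sel_p(E/F) ≠ 0` then, `Gal(F/K)` being a `p`-group, the group has a nonzero element
fixed by `Gal(F/K)`; as `E(F)[p] = 0` it comes from a class in `H¹(K, E[p])`, and this class is in `Sel_p(E/K)`: at the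
split places there is nothing to prove, at the unramified places `v ∤ 6pΔ` one uses the reduction, and at the
admissible places `H¹(Gal(F_u/K_v), E(F_u))` has no elements of order `p` by `E(K_v)[p] = 0`.  The descent is done with
cocycles (`Pool.Agent.T2h93.descent`).  By the theorem of Mordell and Weil `E(F)` is finite of order prime to `p`.
Analytic side: `L(E/F, s)` is the product of the `L(E ⊗ ψ, s)`, `ψ` a character of `Gal(F/K)`, also at the ramified and
at the bad places (`fac`).  By the theorem of helper55 (`Pool.Agent.K4H55`) these functions are entire, and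
`τ(ψ) L(E ⊗ ψ, 1)` is `ω` times a sum of the values of `ψ⁻¹` with integral coefficients, where `Λ = ℤ ω`; modulo the primes
above `p` of the ring of algebraic integers the sum for `ψ` of conductor `∏_{v ∈ T} v` is `∏ (a_v - 2)` times the one
for `ψ = 1`, so it is a unit at `p`.  The product of these sums over all `ψ` is a rational integer, by Galois theory of the
cyclotomic field, and the product of the Gauss sums is the product of the `± N(v)` over the pairs `ψ, ψ⁻¹`, so it is
a rational integer as well, prime to `p`.  At last `Δ_F = ± b² Δ_K^[F : K]` with `p ∤ b`, and `Ω_(E/F) = Ω_(E/K)^[F : K]`.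
-/

set_option autoImplicit false

open NumberField IsDedekindDomain WeierstrassCurve MeasureTheory Filter Topology Matrix

namespace Pool.Agent.Results.MP_e996df_nt.OddPartImaginaryQuadratic

open scoped Classical

open Pool.Agent.TH841.NF.D (Sha)

/-! ### The conjecture over a number field `F` for an equation over the integers of `F` -/

section curve

variable {F : Type} [Field F] [NumberField F]

/-- The curve over `F` given by the equation `W` over the ring of integers. -/
abbrev curve (W : WeierstrassCurve (𝓞 F)) : WeierstrassCurve F := W.map (algebraMap (𝓞 F) F)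

/-- The number of the affine points `(x, y)` over the residue field of `v`. -/
noncomputable def pts (W : WeierstrassCurve (𝓞 F)) (v : HeightOneSpectrum (𝓞 F)) : ℕ :=
  Nat.card {P : (𝓞 F ⧸ v.asIdeal) × (𝓞 F ⧸ v.asIdeal) //
    (W.map (Ideal.Quotient.mk v.asIdeal)).toAffine.Equation P.1 P.2}

/-- `a_v = N v + 1 - #W(k_v)`, the points over the residue field `k_v` counted with the point at
infinity. -/
noncomputable def a (W : WeierstrassCurve (𝓞 F)) (v : HeightOneSpectrum (𝓞 F)) : ℤ :=
  (Ideal.absNorm v.asIdeal : ℤ) - pts W v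

/-- The Euler factor of `L(W/F, s)` at `v` : `(1 - a_v N v^(-s) + N v^(1 - 2 s))⁻¹` if the
discriminant is a unit at `v`, and `(1 - a_v N v^(-s))⁻¹` otherwise (for an equation minimal at `v`). -/
noncomputable def factor (W : WeierstrassCurve (𝓞 F)) (s : ℂ) (v : HeightOneSpectrum (𝓞 F)) : ℂ :=
  (1 - (a W v : ℂ) * (Ideal.absNorm v.asIdeal : ℂ) ^ (-s) +
    if W.Δ ∈ v.asIdeal then 0 else (Ideal.absNorm v.asIdeal : ℂ) ^ (1 - 2 * s))⁻¹

/-- The equation is minimal at the finite place `v` of `F`: no change of variables over `F` that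
keeps the coefficients integral at `v` decreases the valuation of the discriminant. -/
def MinimalAt (W : WeierstrassCurve (𝓞 F)) (v : HeightOneSpectrum (𝓞 F)) : Prop :=
  ∀ C : VariableChange F, v.valuation F (C • curve W).a₁ ≤ 1 →
    v.valuation F (C • curve W).a₂ ≤ 1 → v.valuation F (C • curve W).a₃ ≤ 1 →
    v.valuation F (C • curve W).a₄ ≤ 1 → v.valuation F (C • curve W).a₆ ≤ 1 →
    v.valuation F (C • curve W).Δ ≤ v.valuation F (curve W).Δ

/-- The curve over the completion `F_v`. -/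
noncomputable abbrev completed (W : WeierstrassCurve (𝓞 F)) (v : HeightOneSpectrum (𝓞 F)) :
    WeierstrassCurve (v.adicCompletion F) := W.map (algebraMap (𝓞 F) (v.adicCompletion F))

/-- `E⁰(F_v)`, the group of the points of `W` over the completion `F_v` with nonsingular reduction:
the points `(x, y)` where `x` is not integral, or one of the partial derivatives of
`y² + a₁ x y + a₃ y - x³ - a₂ x² - a₄ x - a₆` is a unit at `(x, y)`, and the point at infinity. -/
noncomputable def nonsing (W : WeierstrassCurve (𝓞 F)) (v : HeightOneSpectrum (𝓞 F)) :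
    AddSubgroup (completed W v).toAffine.Point :=
  AddSubgroup.closure {P | ∀ x y h, P = Affine.Point.some x y h →
    1 < Valued.v x ∨ Valued.v ((completed W v).a₁ * y -
        (3 * x ^ 2 + 2 * (completed W v).a₂ * x + (completed W v).a₄)) = 1 ∨
      Valued.v (2 * y + (completed W v).a₁ * x + (completed W v).a₃) = 1}

/-- The Tamagawa number `c_v = [E(F_v) : E⁰(F_v)]` of a minimal equation. -/
noncomputable def tamagawa (W : WeierstrassCurve (𝓞 F)) (v : HeightOneSpectrum (𝓞 F)) : ℕ :=
  (nonsing W v).index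

/-- The product of the Tamagawa numbers. -/
noncomputable def Tam (W : WeierstrassCurve (𝓞 F)) : ℕ := ∏ᶠ v : HeightOneSpectrum (𝓞 F), tamagawa W v

/-- The `p`-primary part of the Tate-Shafarevich group over `F`. -/
def ShaP (p : ℕ) (W : WeierstrassCurve (𝓞 F)) : Set (Sha (curve W)) := {x | ∃ n : ℕ, p ^ n • x = 0}

/-- The torsion subgroup of the group of the points over `F`. -/
def tors (W : WeierstrassCurve (𝓞 F)) : Set (curve W).toAffine.Point :=
  {P | ∃ n : ℕ, 0 < n ∧ n • P = 0}

/-- The rank of the group of the points over `F`. -/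
noncomputable def rank (W : WeierstrassCurve (𝓞 F)) : ℕ := Module.finrank ℤ (curve W).toAffine.Point

/-- `4 x³ + b₂ x² + 2 b₄ x + b₆ = (2 y + a₁ x + a₃)²`, for the image of the equation under the embedding
`τ` of `F`; here `b₂ = a₁² + 4 a₂`, `b₄ = 2 a₄ + a₁ a₃`, `b₆ = a₃² + 4 a₆`. -/
noncomputable def cubic (W : WeierstrassCurve (𝓞 F)) (τ : F →+* ℂ) (x : ℂ) : ℂ :=
  4 * x ^ 3 + τ W.b₂ * x ^ 2 + 2 * τ W.b₄ * x + τ W.b₆

/-- The period of `ω = dx / (2 y + a₁ x + a₃)` at the infinite place `w`: if `w` is real,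
`∫_{W(F_w)} |ω|`, as an integral over `x` (two real points lie over each `x` with `cubic x > 0`); if `w` is
complex, `2 ∫_{W(ℂ)} |ω ∧ ω̄|`, where `|ω ∧ ω̄| = du dv` in a local parameter `z = u + i v` with
`dz = ω`, as an integral over `x` (two points lie over a general `x`, and `|ω ∧ ω̄|` is the area
element of the plane of `x` divided by `|cubic x|`).  The powers of two do not matter here, as `p` is odd. -/
noncomputable def period (W : WeierstrassCurve (𝓞 F)) (w : InfinitePlace F) : ℝ :=
  if w.IsReal then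
    2 * ∫ x in {x : ℝ | 0 < (cubic W w.embedding x).re}, 1 / √((cubic W w.embedding x).re)
  else 2 * (2 * ∫ x : ℂ, 1 / ‖cubic W w.embedding x‖)

/-- The global period of an equation that is minimal at all finite places. -/
noncomputable def Omega (W : WeierstrassCurve (𝓞 F)) : ℝ := ∏ w : InfinitePlace F, period W w

/-- **The `p`-part of the Birch and Swinnerton-Dyer conjecture** for the elliptic curve given by the
equation `W` over the integers of `F`, the equation being minimal and the rank being zero: almost all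
Tamagawa numbers are one; the `L`-function is entire; its order at `s = 1` is the rank; the `p`-primary part of
the Tate-Shafarevich group is finite; and `L(1) √|Δ_F| / Ω` is a rational number with the same `p`-adic
valuation as `#Ш[p^∞] Tam / #tors²`. -/
structure BSDp (p : ℕ) (W : WeierstrassCurve (𝓞 F)) : Prop where
  elliptic : W.Δ ≠ 0
  minimal : ∀ v : HeightOneSpectrum (𝓞 F), MinimalAt W v
  tam : {v : HeightOneSpectrum (𝓞 F) | tamagawa W v ≠ 1}.Finite
  rank : rank W = 0
  points : Finite (curve W).toAffine.Point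
  sha : (ShaP p W).Finite
  formula : ∃ L : ℂ → ℂ, Differentiable ℂ L ∧
    (∀ s : ℂ, 2 < s.re → HasProd (factor W s) (L s)) ∧ analyticOrderAt L 1 = 0 ∧
    ∃ r : ℚ, L 1 * √|(discr F : ℝ)| = r * Omega W ∧ r ≠ 0 ∧
      padicValRat p r = padicValRat p
        ((Nat.card (ShaP p W) * Tam W : ℚ) / (Nat.card (tors W) : ℚ) ^ 2)

/-- The algebraic terms of the formula are prime to `p`. -/
structure AllPrime (p : ℕ) (W : WeierstrassCurve (𝓞 F)) : Prop where
  sha : ShaP p W = {0}
  tam : ¬ p ∣ Tam W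
  tors : ¬ p ∣ Nat.card (tors W)

end curve

/-! ### Bianchi newforms -/

/-- `K` is an imaginary quadratic field, `σ` is one of its two embeddings in `ℂ`, and `δ` generates the
different of `K`: an `x ∈ K` is in `𝓞` if and only if `Tr(x y / δ) ∈ ℤ` for all `y ∈ 𝓞`. -/
structure IsFieldData (K : Type) [Field K] [NumberField K] (σ : K →+* ℂ) (δ : K) : Prop where
  quadratic : Module.finrank ℚ K = 2
  imaginary : ∃ x, (starRingEnd ℂ) (σ x) ≠ σ x
  different : ∀ x : K, (∃ a : 𝓞 K, (a : K) = x) ↔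
    ∀ y : 𝓞 K, ∃ m : ℤ, Algebra.trace ℚ K (x * y / δ) = m

/-- `h(y) = ∫_0^∞ exp(-1/v - y v) dv = 2 y^(-1/2) K₁(2 √y)`, with the Bessel function `K₁`. -/
noncomputable def bessel (y : ℝ) : ℝ := ∫ v in Set.Ioi (0 : ℝ), Real.exp (-(1 / v) - y * v)

/-- The additive character `e(z) = exp(2πi (z/δ + conj (z/δ)))` of `ℂ`, trivial on `𝓞`. -/
noncomputable def addChar (δ z : ℂ) : ℂ :=
  Complex.exp (2 * Real.pi * Complex.I * (z / δ + (starRingEnd ℂ) (z / δ)))

/-- The denominator `|c z + d|² + |c|² t²` of the action of the matrix `(a, b; c, d)` on the hyperbolic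
space `{(z, t) : z ∈ ℂ, t > 0}`. -/
noncomputable def den (c d z : ℂ) (t : ℝ) : ℝ := ‖c * z + d‖ ^ 2 + ‖c‖ ^ 2 * t ^ 2

/-- The first coordinate `((a z + b) conj (c z + d) + a conj(c) t²) / (|c z + d|² + |c|² t²)` of the image
of `(z, t)` under the matrix `(a, b; c, d)`. -/
noncomputable def actZ (a b c d z : ℂ) (t : ℝ) : ℂ :=
  ((a * z + b) * (starRingEnd ℂ) (c * z + d) + a * (starRingEnd ℂ) c * (t : ℂ) ^ 2) /
    (den c d z t : ℂ)

/-- The second coordinate, for a matrix of determinant one; in general it is `|ad - bc|` times this. -/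
noncomputable def actT (c d z : ℂ) (t : ℝ) : ℝ := t / den c d z t

section field

variable {K : Type} [Field K] [NumberField K]

/-- The function `Φ(z, t) = ∑_{x ∈ 𝓞} c((x)) t² h(N(x) (2πt/|δ|)²) e(x z)
  = (|δ|/π) ∑_{x ≠ 0} (c((x))/|x|) t K₁(4π|x|t/|δ|) e(x z)` on the hyperbolic space, with the coefficients `c`.
Up to a constant factor it is the primitive, zero at the cusp `∞`, of the harmonic differential of the
form of weight two with the Fourier coefficients `c`: its derivative by `t` is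
`-4 ∑_{x ≠ 0} c((x)) t K₀(4π|x|t/|δ|) e(x z)`. -/
noncomputable def primitive (σ : K →+* ℂ) (δ : K) (c : Ideal (𝓞 K) → ℂ) (z : ℂ) (t : ℝ) : ℂ :=
  ∑' x : 𝓞 K, c (Ideal.span {x}) * ((t ^ 2 * bessel (Ideal.absNorm (Ideal.span {x}) *
    (2 * Real.pi * t / ‖σ δ‖) ^ 2) : ℝ) : ℂ) * addChar (σ δ) (σ x * z)

/-- The group `Λ` generated by the values of the primitive `Φ` at the cusps `x/m`, `m ≠ 0` prime to the level (that is,
by the limits of `Φ(x/m, t)` for `t → 0`). -/
def Lam (σ : K →+* ℂ) (δ : K) (n : 𝓞 K) (c : Ideal (𝓞 K) → ℂ) : AddSubgroup ℂ :=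
  AddSubgroup.closure {z | ∃ x m : 𝓞 K, m ≠ 0 ∧ IsCoprime m n ∧
    Tendsto (fun t => primitive σ δ c (σ x / σ m) t) (𝓝[>] 0) (𝓝 z)}

/-- The numbers `c(I)` are the Hecke eigenvalues of a Bianchi newform `f` of weight two, level `(n)` and
trivial character over `K`, with rational eigenvalues: they satisfy `c(𝓞) = 1`, the (trivial) bound `c(I) = O(N(I))`
and the Hecke relations `c(v I) = c(v) c(I)` for `v ∤ I`, `c(v² I) = c(v) c(v I) - N(v) c(I)` for the primes `v ∤ n`, and
`c(v I) = c(v) c(I)` for `v ∣ n`; the differential `dΦ` of the function `Φ` with the coefficients `c` is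
invariant under `Γ₀(n)`, that is, `Φ(γ P) - Φ(P)` is a constant for every `γ ∈ Γ₀(n)`; `dΦ` is an
eigenform, with the eigenvalue `±1`, of the Fricke involution `W = (0, -1; n, 0)`; and the group `Λ` of the values of `Φ` at
cusps is cyclic (this is so for rational eigenvalues, by multiplicity one and the theorem of Manin, Drinfeld and
Kurčanov: the quotient of `H₁(Γ₀(n), cusps; ℤ)` which belongs to `f` has rank one). -/
structure IsNewform (σ : K →+* ℂ) (δ : K) (n : 𝓞 K) (c : Ideal (𝓞 K) → ℂ) : Prop where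
  level : n ≠ 0
  zero : c ⊥ = 0
  one : c ⊤ = 1
  bound : ∃ C : ℝ, ∀ I, ‖c I‖ ≤ C * Ideal.absNorm I
  good : ∀ v : HeightOneSpectrum (𝓞 K), n ∉ v.asIdeal → ∀ I,
    (¬ v.asIdeal ∣ I → c (v.asIdeal * I) = c v.asIdeal * c I) ∧
    c (v.asIdeal * (v.asIdeal * I)) = c v.asIdeal * c (v.asIdeal * I) -
      Ideal.absNorm v.asIdeal * c I
  bad : ∀ v : HeightOneSpectrum (𝓞 K), n ∈ v.asIdeal → ∀ I,
    c (v.asIdeal * I) = c v.asIdeal * c I
  invariant : ∃ κ : SpecialLinearGroup (Fin 2) (𝓞 K) → ℂ,
    ∀ γ : SpecialLinearGroup (Fin 2) (𝓞 K), n ∣ γ.1 1 0 → ∀ (z : ℂ) (t : ℝ), 0 < t →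
      primitive σ δ c (actZ (σ (γ.1 0 0)) (σ (γ.1 0 1)) (σ (γ.1 1 0)) (σ (γ.1 1 1)) z t)
        (actT (σ (γ.1 1 0)) (σ (γ.1 1 1)) z t) = primitive σ δ c z t + κ γ
  fricke : ∃ w κ : ℂ, w * w = 1 ∧ ∀ (z : ℂ) (t : ℝ), 0 < t →
    primitive σ δ c (actZ 0 (-1) (σ n) 0 z t) (‖σ n‖ * actT (σ n) 0 z t) =
      -w * primitive σ δ c z t + κ
  cyclic : ∃ ω ∈ Lam σ δ n c, ∀ l ∈ Lam σ δ n c, ∃ j : ℤ, l = j * ω

/-- `f` is the newform of the elliptic curve with the minimal equation `W`: the level has the same prime divisors as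
the discriminant, and `c(v) = a_v` for all places. -/
structure IsNewformOf (W : WeierstrassCurve (𝓞 K)) (n : 𝓞 K) (c : Ideal (𝓞 K) → ℂ) : Prop where
  level : ∀ v : HeightOneSpectrum (𝓞 K), n ∈ v.asIdeal ↔ W.Δ ∈ v.asIdeal
  coef : ∀ v : HeightOneSpectrum (𝓞 K), c v.asIdeal = a W v

/-- The central value is a unit at `p`: `Φ(0)`, the limit of `Φ(0, t)` for `t → 0`, is not in `p Λ`. -/
def UnitCentralValue (p : ℕ) (σ : K →+* ℂ) (δ : K) (n : 𝓞 K) (c : Ideal (𝓞 K) → ℂ) : Prop :=
  ∃ z₀ : ℂ, Tendsto (fun t => primitive σ δ c 0 t) (𝓝[>] 0) (𝓝 z₀) ∧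
    ∀ y ∈ Lam σ δ n c, z₀ ≠ p * y

/-! ### The extensions -/

/-- The admissible places: `v ∤ 6 p Δ`, `N(v) ≡ 1 mod p`, and the number of the points over the residue field (with the
point at infinity) is prime to `p`. -/
def Admissible (p : ℕ) (W : WeierstrassCurve (𝓞 K)) (v : HeightOneSpectrum (𝓞 K)) : Prop :=
  6 * (p : 𝓞 K) * W.Δ ∉ v.asIdeal ∧ p ∣ Ideal.absNorm v.asIdeal - 1 ∧ ¬ p ∣ pts W v + 1

/-- `χ` is a character of `K` of `p`-power order and of conductor `∏_{v ∈ T} v`, as a function on `𝓞` (`K` has class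
number one): a primitive character modulo the product of the `v ∈ T`, trivial on the units, and zero on the `x` which
are not prime to the conductor. -/
structure IsCharacter (p : ℕ) (T : Finset (HeightOneSpectrum (𝓞 K))) (χ : 𝓞 K → ℂ) : Prop where
  one : χ 1 = 1
  mul : ∀ x y, χ (x * y) = χ x * χ y
  zero : ∀ x, χ x = 0 ↔ ∃ v ∈ T, x ∈ v.asIdeal
  periodic : ∀ x y, (∀ v ∈ T, x - y ∈ v.asIdeal) → χ x = χ y
  units : ∀ u, IsUnit u → χ u = 1
  primitive : ∀ v ∈ T, ∃ x, (∀ v' ∈ T, v' ≠ v → x - 1 ∈ v'.asIdeal) ∧ χ x ≠ 0 ∧ χ x ≠ 1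
  order : ∃ k : ℕ, ∀ x, χ x ≠ 0 → χ x ^ p ^ k = 1

variable (F : Type) [Field F] [NumberField F] [Algebra K F]

/-- The places `u` of `F` above `v`. -/
def Above (v : HeightOneSpectrum (𝓞 K)) : Type :=
  {u : HeightOneSpectrum (𝓞 F) // u.asIdeal.comap (algebraMap (𝓞 K) (𝓞 F)) = v.asIdeal}

/-- `F` is the class field over `K` of a group of characters of `K` of `p`-power order, of conductors which are products
of different admissible places, and the places `v ∣ 6 p Δ` split completely in `F` (there is an embedding of `F` in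
`K_v`).  That is, `Gal(F/K)` is an abelian `p`-group, and for each of its characters `ψ` there is such a character `χ` of
`K`, of conductor `∏_{v ∈ T} v`, with the law of reciprocity: `ψ(t) = χ(v)` for all places `v ∉ T` of `K` and all
Frobenius automorphisms `t ∈ Gal(F/K)` at places of `F` above `v`, and `ψ` is ramified at the places `v ∈ T`: it is not
trivial on the inertia groups `{t : t x ≡ x mod u for all x ∈ 𝓞_F}` of the places `u ∣ v` of `F`. -/
structure IsClassField [IsPrincipalIdealRing (𝓞 K)] (p : ℕ) (W : WeierstrassCurve (𝓞 K)) :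
    Prop where
  galois : IsGalois K F
  degree : ∃ k : ℕ, Module.finrank K F = p ^ k
  abelian : ∀ s t : F ≃ₐ[K] F, s * t = t * s
  split : ∀ v : HeightOneSpectrum (𝓞 K), 6 * (p : 𝓞 K) * W.Δ ∈ v.asIdeal →
    Nonempty (F →ₐ[K] v.adicCompletion K)
  reciprocity : ∀ ψ : (F ≃ₐ[K] F) →* ℂ, ∃ (T : Finset (HeightOneSpectrum (𝓞 K))) (χ : 𝓞 K → ℂ),
    IsCharacter p T χ ∧ (∀ v ∈ T, Admissible p W v) ∧
    (∀ v : HeightOneSpectrum (𝓞 K), v ∉ T → ∀ (u : Above F v) (t : F ≃ₐ[K] F),
      (∀ x : 𝓞 F, t • x - x ^ Ideal.absNorm v.asIdeal ∈ u.1.asIdeal) →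
      ψ t = χ (Submodule.IsPrincipal.generator v.asIdeal)) ∧
    ∀ v ∈ T, ∀ u : Above F v, ∃ t : F ≃ₐ[K] F, (∀ x : 𝓞 F, t • x - x ∈ u.1.asIdeal) ∧ ψ t ≠ 1

end field

/-! ### The proof -/

section alg

variable {F : Type} [Field F] [NumberField F] {W : WeierstrassCurve (𝓞 F)} {p : ℕ}

lemma tors_eq (h : Finite (curve W).toAffine.Point) : tors W = Set.univ := by
  ext P
  simp only [Set.mem_univ, iff_true]
  exact ⟨Nat.card (curve W).toAffine.Point, Nat.card_pos,
    card_nsmul_eq_zero' (G := (curve W).toAffine.Point) (x := P)⟩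

lemma rank_eq (h : Finite (curve W).toAffine.Point) : rank W = 0 := by
  unfold rank
  apply Module.IsTorsion.finrank_eq_zero
  intro P
  refine ⟨⟨(Nat.card (curve W).toAffine.Point : ℤ), ?_⟩, ?_⟩
  · rw [mem_nonZeroDivisors_iff_ne_zero]
    exact_mod_cast Nat.card_pos.ne'
  · show (Nat.card (curve W).toAffine.Point : ℤ) • P = 0
    rw [natCast_zsmul]
    exact card_nsmul_eq_zero'

lemma sha_eq (h : ∀ s : Sha (curve W), p • s = 0 → s = 0) : ShaP p W = {0} := by
  have key : ∀ (j : ℕ) (x : Sha (curve W)), p ^ j • x = 0 → x = 0 := by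
    intro j
    induction j with
    | zero => intro x hx; rw [pow_zero, one_nsmul] at hx; exact hx
    | succ j ih =>
      intro x hx
      rw [pow_succ, mul_nsmul] at hx
      exact ih x (h _ hx)
  ext x
  constructor
  · rintro ⟨k, hk⟩
    exact key k x hk
  · rintro rfl
    exact ⟨0, nsmul_zero _⟩

lemma all_sha (h : AllPrime p W) (s : Sha (curve W)) (hs : p • s = 0) : s = 0 := by
  have h1 : s ∈ ShaP p W := ⟨1, by rw [pow_one]; exact hs⟩
  rw [h.sha] at h1
  exact h1

lemma all_val [Fact p.Prime] (h : AllPrime p W) : padicValRat p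
    ((Nat.card (ShaP p W) * Tam W : ℚ) / (Nat.card (tors W) : ℚ) ^ 2) = 0 := by
  have ne : ∀ n : ℕ, ¬ p ∣ n → (n : ℚ) ≠ 0 := fun n hn h0 => hn (by
    have : n = 0 := by exact_mod_cast h0
    rw [this]
    exact dvd_zero _)
  rw [h.sha, Nat.card_unique, Nat.cast_one, one_mul]
  rw [padicValRat.div (ne _ h.tam) (pow_ne_zero _ (ne _ h.tors)), padicValRat.pow,
    padicValRat.of_nat, padicValRat.of_nat, padicValNat.eq_zero_of_not_dvd h.tam,
    padicValNat.eq_zero_of_not_dvd h.tors]
  simp

lemma c_prime (hfin : {v : HeightOneSpectrum (𝓞 F) | tamagawa W v ≠ 1}.Finite) (hp : p.Prime)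
    (h : ¬ p ∣ Tam W) (v : HeightOneSpectrum (𝓞 F)) : ¬ p ∣ tamagawa W v := by
  intro hd
  by_cases hv : tamagawa W v = 1
  · rw [hv] at hd
    exact hp.one_lt.ne' (Nat.dvd_one.1 hd)
  · refine h (hd.trans ?_)
    unfold Tam
    rw [finprod_eq_prod_of_mulSupport_subset (s := hfin.toFinset) (fun v => tamagawa W v) (by
      intro w hw
      simpa using hw)]
    exact Finset.dvd_prod_of_mem _ (by simpa using hv)

lemma finite_bad (x : 𝓞 F) (hx : x ≠ 0) : {v : HeightOneSpectrum (𝓞 F) | x ∈ v.asIdeal}.Finite := by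
  have h := Ideal.finite_factors (R := 𝓞 F) (I := Ideal.span {x})
    (fun h => hx (Ideal.span_singleton_eq_bot.1 h))
  refine h.subset fun v hv => ?_
  exact Ideal.dvd_iff_le.2 ((Ideal.span_singleton_le_iff_mem _).2 hv)

lemma unit_val {v : HeightOneSpectrum (𝓞 F)} (hv : W.Δ ∉ v.asIdeal) :
    v.valuation F (algebraMap (𝓞 F) F W.Δ) = 1 :=
  le_antisymm (v.valuation_le_one _) (not_lt.1 fun h => hv ((v.valuation_lt_one_iff_mem _).1 h))

lemma c_good {v : HeightOneSpectrum (𝓞 F)} (hv : W.Δ ∉ v.asIdeal) : tamagawa W v = 1 := by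
  have hle : ∀ x : 𝓞 F, Valued.v (algebraMap (𝓞 F) (v.adicCompletion F) x) ≤ 1 := by
    intro x
    rw [IsScalarTower.algebraMap_apply (𝓞 F) F (v.adicCompletion F)]
    have h1 : Valued.v (algebraMap F (v.adicCompletion F) (algebraMap (𝓞 F) F x)) =
        v.valuation F (algebraMap (𝓞 F) F x) :=
      HeightOneSpectrum.valuedAdicCompletion_eq_valuation' v _
    rw [h1]
    exact v.valuation_le_one x
  have h : nonsing W v = ⊤ := Pool.Agent.T2h93.B.e0_top (completed W v) Valued.v (hle _) (hle _)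
    (hle _) (hle _) (hle _) (by
      rw [WeierstrassCurve.map_Δ, IsScalarTower.algebraMap_apply (𝓞 F) F (v.adicCompletion F)]
      have h1 : Valued.v (algebraMap F (v.adicCompletion F) (algebraMap (𝓞 F) F W.Δ)) =
          v.valuation F (algebraMap (𝓞 F) F W.Δ) :=
        HeightOneSpectrum.valuedAdicCompletion_eq_valuation' v _
      rw [h1]
      exact unit_val hv)
  unfold tamagawa
  rw [h, AddSubgroup.index_top]

lemma min_of_good {v : HeightOneSpectrum (𝓞 F)} (hv : W.Δ ∉ v.asIdeal) : MinimalAt W v :=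
  Pool.Agent.T2h93.B.min_good (curve W) (v.valuation F) (by
    rw [WeierstrassCurve.map_Δ]
    exact unit_val hv)

end alg

section up

open Pool.Agent Pool.Agent.T2h93

variable {K F : Type} [Field K] [NumberField K] [Field F] [NumberField F] [Algebra K F]
  [IsGalois K F]

/-- the places above the place `v` which splits completely -/
lemma split_place (W : WeierstrassCurve (𝓞 K)) {v : HeightOneSpectrum (𝓞 K)} (u : B.Ab F v)
    (h : Nonempty (F →ₐ[K] v.adicCompletion K)) :
    tamagawa (W.map (algebraMap (𝓞 K) (𝓞 F))) u.1 = tamagawa W v ∧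
    (MinimalAt W v → MinimalAt (W.map (algebraMap (𝓞 K) (𝓞 F))) u.1) := by
  obtain ⟨i₀⟩ := h
  obtain ⟨i, hi⟩ := B.emb_all i₀ u
  refine ⟨B.tam_split hi W, fun hm => ?_⟩
  have h1 := B.min_split hi (curve W) hm
  have e : curve (W.map (algebraMap (𝓞 K) (𝓞 F))) = (curve W).map (algebraMap K F) := by
    unfold curve
    rw [WeierstrassCurve.map_map, WeierstrassCurve.map_map]
    rfl
  intro C
  rw [e]
  exact h1 C

/-- the Tamagawa numbers and the minimality over the extension -/
lemma place_up (W : WeierstrassCurve (𝓞 K)) {p : ℕ} (hp : p.Prime)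
    (hsp : ∀ v : HeightOneSpectrum (𝓞 K), 6 * (p : 𝓞 K) * W.Δ ∈ v.asIdeal →
      Nonempty (F →ₐ[K] v.adicCompletion K))
    (hfin : {v : HeightOneSpectrum (𝓞 K) | tamagawa W v ≠ 1}.Finite) (hT : ¬ p ∣ Tam W)
    (hmin : ∀ v : HeightOneSpectrum (𝓞 K), MinimalAt W v) (u : HeightOneSpectrum (𝓞 F)) :
    ¬ p ∣ tamagawa (W.map (algebraMap (𝓞 K) (𝓞 F))) u ∧
      MinimalAt (W.map (algebraMap (𝓞 K) (𝓞 F))) u := by
  set v := B.bel K u with hv
  by_cases h : W.Δ ∈ v.asIdeal
  · obtain ⟨h1, h2⟩ := split_place W (⟨u, rfl⟩ : B.Ab F v) (hsp v (v.asIdeal.mul_mem_left _ h))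
    refine ⟨?_, h2 (hmin v)⟩
    rw [h1]
    exact c_prime hfin hp hT v
  · have h1 : (W.map (algebraMap (𝓞 K) (𝓞 F))).Δ ∉ u.asIdeal := by
      rw [WeierstrassCurve.map_Δ]
      exact h
    refine ⟨?_, min_of_good h1⟩
    rw [c_good h1]
    exact fun h2 => hp.one_lt.ne' (Nat.dvd_one.1 h2)

end up

/-- **Main theorem.** Let `K` be an imaginary quadratic field of class number one, `p` an odd prime, `W` a
Weierstrass equation over the integers of `K` and `c` the Hecke eigenvalues of the Bianchi newform of its elliptic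
curve.  Assume that the `p`-part of the Birch and Swinnerton-Dyer conjecture holds for `W` over `K`, that its terms are
prime to `p`, and that the central value `Φ(0)` is a unit at `p`.  Let `F` be the class field over `K` of a group of
characters of `p`-power order, of conductors which are products of different admissible places, in which the places
`v ∣ 6 p Δ` split completely.  Then the `p`-part of the Birch and Swinnerton-Dyer conjecture holds for `W` over `F`, and its
terms are prime to `p`. -/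
theorem result (K : Type) [Field K] [NumberField K] [IsPrincipalIdealRing (𝓞 K)] (σ : K →+* ℂ)
    (δ : K) (hK : IsFieldData K σ δ) (p : ℕ) (hp : p.Prime) (hodd : p ≠ 2)
    (W : WeierstrassCurve (𝓞 K)) (n : 𝓞 K) (c : Ideal (𝓞 K) → ℂ) (hf : IsNewform σ δ n c)
    (hE : IsNewformOf W n c) (hB : BSDp p W) (hA : AllPrime p W)
    (hval : UnitCentralValue p σ δ n c)
    (F : Type) [Field F] [NumberField F] [Algebra K F] (hF : IsClassField F p W) :
    BSDp p (W.map (algebraMap (𝓞 K) (𝓞 F))) ∧ AllPrime p (W.map (algebraMap (𝓞 K) (𝓞 F))) := by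
  have hpF : Fact p.Prime := ⟨hp⟩
  have hG := hF.galois
  have hQ : K4H55.BI.IQ K σ δ := ⟨hK.quadratic, hK.imaginary, inferInstance, hK.different⟩
  have hf' : K4H55.BI.BF σ δ n c := ⟨hf.level, hf.zero, hf.one, hf.bound, hf.good, hf.bad,
    hf.invariant, hf.fricke⟩
  obtain ⟨k, hk⟩ := hF.degree
  have hcard : Nat.card (F ≃ₐ[K] F) = p ^ k := by rw [IsGalois.card_aut_eq_finrank, hk]
  choose T χ hχ hT hfrob hram using hF.reciprocity
  have hR : ∀ ψ, T2h93.B.Rec p (T ψ) (χ ψ) ψ := fun ψ =>
    ⟨⟨(hχ ψ).one, (hχ ψ).mul, (hχ ψ).zero, (hχ ψ).periodic, (hχ ψ).units, (hχ ψ).primitive,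
      (hχ ψ).order⟩, hfrob ψ, hram ψ⟩
  have hΔ0 := hB.elliptic
  -- the descent
  have hptsK : Finite (curve W).toAffine.Point := hB.points
  have hcardK : ¬ p ∣ Nat.card (curve W).toAffine.Point := by
    have h := hA.tors
    rw [tors_eq hptsK, Nat.card_univ] at h
    exact h
  have hunr : ∀ v : HeightOneSpectrum (𝓞 K), 6 * (p : 𝓞 K) * W.Δ ∉ v.asIdeal →
      T2h93.Fv.Unr F v ∨ ¬ p ∣ T2h93.B.npts (W.map (Ideal.Quotient.mk v.asIdeal)) + 1 := by
    intro v _
    by_cases h : ∃ ψ, v ∈ T ψ
    · obtain ⟨ψ, hψ⟩ := h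
      exact Or.inr (hT ψ v hψ).2.2
    · push Not at h
      exact Or.inl (T2h93.B.unr_of hF.abelian hR h)
  obtain ⟨hfinF, hcardF, hshaF⟩ := T2h93.up W hΔ0
    (IsPGroup.of_card (by rw [hcard])) hF.split hunr
    (fun v => (T2h93.B.quad_places hK.quadratic hK.imaginary v).2) hptsK hcardK
    (fun x hx => all_sha hA x hx)
  have htors : tors (W.map (algebraMap (𝓞 K) (𝓞 F))) = Set.univ := tors_eq hfinF
  have hSha : ShaP p (W.map (algebraMap (𝓞 K) (𝓞 F))) = {0} := sha_eq hshaF
  have hplace := place_up (F := F) W hp hF.split hB.tam hA.tam hB.minimal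
  have hTam : ¬ p ∣ Tam (W.map (algebraMap (𝓞 K) (𝓞 F))) :=
    finprod_induction (fun x => ¬ p ∣ x) (fun h => hp.one_lt.ne' (Nat.dvd_one.1 h))
      (fun x y hx hy h => (hp.dvd_mul.1 h).elim hx hy) fun u => (hplace u).1
  have hAF : AllPrime p (W.map (algebraMap (𝓞 K) (𝓞 F))) :=
    ⟨hSha, hTam, by rw [htors, Nat.card_univ]; exact hcardF⟩
  refine ⟨?_, hAF⟩
  have hΔF : (W.map (algebraMap (𝓞 K) (𝓞 F))).Δ ≠ 0 := by
    rw [WeierstrassCurve.map_Δ]
    intro h
    apply hΔ0
    have hinj : Function.Injective (algebraMap (𝓞 K) (𝓞 F)) :=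
      FaithfulSMul.algebraMap_injective _ _
    exact (map_eq_zero_iff _ hinj).1 h
  -- the newform
  obtain ⟨ω, hω', hω⟩ := hf.cyclic
  obtain ⟨z, hz, hzp⟩ := hval
  obtain ⟨m₀, hm₀⟩ : ∃ m₀ : ℤ, z = m₀ * ω := by
    refine hω z (AddSubgroup.subset_closure ⟨0, 1, one_ne_zero, isCoprime_one_left, ?_⟩)
    have e : σ ((0 : 𝓞 K) : K) / σ ((1 : 𝓞 K) : K) = 0 := by simp
    rw [e]
    exact hz
  have hmp : ¬ (p : ℤ) ∣ m₀ := by
    rintro ⟨m₁, rfl⟩
    refine hzp (m₁ * ω) ?_ ?_
    · have h1 := (Lam σ δ n c).zsmul_mem hω' m₁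
      rwa [zsmul_eq_mul] at h1
    · rw [hm₀]
      push_cast
      ring
  have hω0 : ω ≠ 0 := by
    rintro rfl
    refine hzp 0 (AddSubgroup.zero_mem _) ?_
    rw [hm₀]
    ring
  -- the formula
  obtain ⟨L₀, hL1, hL2, hL3, r₀, hr1, hr2, hr3⟩ := hB.formula
  rw [all_val hA] at hr3
  have hadm : ∀ ψ, ∀ v ∈ T ψ, 6 * (p : 𝓞 K) * W.Δ ∉ v.asIdeal ∧
      ¬ (p : ℤ) ∣ T2h93.B.av W v - 2 := by
    intro ψ v hv
    obtain ⟨h1, h2, h3⟩ := hT ψ v hv
    refine ⟨h1, fun h4 => h3 ?_⟩
    have hN : 1 ≤ Ideal.absNorm v.asIdeal := Nat.one_le_iff_ne_zero.2 (by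
      rw [Ne, Ideal.absNorm_eq_zero_iff]
      exact v.ne_bot)
    have h5 : (p : ℤ) ∣ (Ideal.absNorm v.asIdeal : ℤ) - 1 := by
      have h6 : ((Ideal.absNorm v.asIdeal - 1 : ℕ) : ℤ) = (Ideal.absNorm v.asIdeal : ℤ) - 1 := by
        push_cast [hN]
        rfl
      rw [← h6]
      exact_mod_cast h2
    have h7 : (p : ℤ) ∣ ((pts W v + 1 : ℕ) : ℤ) := by
      have h8 : ((pts W v + 1 : ℕ) : ℤ) = ((Ideal.absNorm v.asIdeal : ℤ) - 1) -
          (T2h93.B.av W v - 2) := by
        have h9 : T2h93.B.av W v = (Ideal.absNorm v.asIdeal : ℤ) - pts W v := rfl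
        rw [h9]
        push_cast
        ring
      rw [h8]
      exact dvd_sub h5 h4
    exact_mod_cast h7
  have hfz : ∀ {E : Type} [Field E] [NumberField E] (W : WeierstrassCurve (𝓞 E)) (s : ℂ),
      factor W s = fun v => T2h93.B.fz W 1 s v := by
    intro E _ _ W s
    funext v
    unfold factor T2h93.B.fz
    rw [mul_one, one_pow, one_mul]
    rfl
  obtain ⟨L, r, hL4, hL5, hL6, hr4, hr5⟩ := T2h93.B.val_F hodd hQ hf' hF.abelian hcard hR W
    hE.level hE.coef hadm hF.split hω0 (fun l hl => hω l hl) (m₀ := m₀) (by rw [← hm₀]; exact hz)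
    hmp hL1 (fun s hs => by
      have := hL2 s hs
      rwa [hfz] at this)
  have hL01 : L₀ 1 ≠ 0 := by
    rcases analyticOrderAt_eq_zero.1 hL3 with h | h
    · exact absurd (hL1.analyticAt 1) h
    · exact h
  have hL11 : L 1 ≠ 0 := by
    rw [hL6]
    exact mul_ne_zero (pow_ne_zero _ hL01) (by exact_mod_cast hr4)
  obtain ⟨b, hb, hbp⟩ := T2h93.B.discr_main (K := K) (F := F)
    (by rw [hcard]; exact (hp.odd_of_ne_two hodd).pow) hp (fun u hu g hg => by
      refine T2h93.B.inertia_one hF.abelian hR (v := T2h93.B.bel K u) (fun ψ hψ => ?_) ⟨u, rfl⟩ g hg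
      refine (hT ψ _ hψ).1 ?_
      refine Ideal.mul_mem_right _ _ (Ideal.mul_mem_left _ _ ?_)
      change algebraMap (𝓞 K) (𝓞 F) (p : 𝓞 K) ∈ u.asIdeal
      rw [map_natCast]
      exact hu)
  refine ⟨hΔF, fun u => (hplace u).2, ?_, rank_eq hfinF, hfinF, ?_, L, hL4, fun s hs => ?_, ?_, ?_⟩
  · refine (finite_bad _ hΔF).subset fun u hu => ?_
    by_contra hcon
    exact hu (c_good hcon)
  · rw [hSha]
    exact Set.finite_singleton 0
  · rw [hfz]
    exact hL5 s hs
  · exact analyticOrderAt_eq_zero.2 (Or.inr hL11)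
  · have hb0 : b ≠ 0 := by
      rintro rfl
      exact hbp (dvd_zero _)
    refine ⟨r₀ ^ p ^ k * r * b, ?_, ?_, ?_⟩
    · have h1 : √|(discr F : ℝ)| = b * √|(discr K : ℝ)| ^ p ^ k := by
        have h2 : |(discr F : ℝ)| = ((b : ℝ) * √|(discr K : ℝ)| ^ p ^ k) ^ 2 := by
          have h3 : |(discr F : ℝ)| = (((discr F).natAbs : ℕ) : ℝ) := by
            rw [Nat.cast_natAbs, Int.cast_abs]
          have h4 : |(discr K : ℝ)| = (((discr K).natAbs : ℕ) : ℝ) := by
            rw [Nat.cast_natAbs, Int.cast_abs]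
          rw [mul_pow, ← pow_mul, mul_comm (p ^ k) 2, pow_mul, Real.sq_sqrt (abs_nonneg _), h3, h4,
            hb, hcard]
          push_cast
          ring
        rw [h2, Real.sqrt_sq (by positivity)]
      have h5 : Omega (W.map (algebraMap (𝓞 K) (𝓞 F))) = Omega W ^ p ^ k := by
        have h6 := T2h93.B.Om_up (F := F) hK.quadratic hK.imaginary W
        rw [hk] at h6
        exact h6
      have h7 : (L₀ 1) ^ p ^ k * (√|(discr K : ℝ)| : ℂ) ^ p ^ k = r₀ ^ p ^ k * (Omega W : ℂ) ^ p ^ k := by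
        rw [← mul_pow, hr1, mul_pow]
      rw [h1, h5, hL6]
      push_cast
      linear_combination (r * b : ℂ) * h7
    · exact mul_ne_zero (mul_ne_zero (pow_ne_zero _ hr2) hr4) (Nat.cast_ne_zero.2 hb0)
    · rw [all_val hAF, padicValRat.mul (mul_ne_zero (pow_ne_zero _ hr2) hr4)
        (Nat.cast_ne_zero.2 hb0), padicValRat.mul (pow_ne_zero _ hr2) hr4, padicValRat.pow, hr3, hr5,
        padicValRat.of_nat, padicValNat.eq_zero_of_not_dvd hbp]
      simp

end Pool.Agent.Results.MP_e996df_nt.OddPartImaginaryQuadratic
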