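import Mathlib
import Pool.Agent.T2h16.KE.All

/-!
# The `2`-part of the Birch and Swinnerton-Dyer conjecture over `K = ℚ(√-7)`: the quadratic twists of
`X_0(49)` by ALL the squarefree `D = 1` modulo `4` of `𝓞 K`, prime to `√-7`

`E_D : y² + x y = x³ - ((1 + 3 D) / 4) x² - 2 D² x - D³` is the twist by `K(√D)` of `X_0(49)`; almost all
these curves are not defined over `ℚ`.  There are at least `c X` such `D` of norm at most `X`.

* For ALL these `D` the series `L(E_D / K, s)` is continued to an entire function, and the quotient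
  `ρ` of `L(E_D / K, 1)` and of the right-hand side of the conjecture (for rank `0`) without the
  order of `Ш` is integral at every valuation of `ℂ` above `2`, and it is a unit there if and only if
  `E_D(K)` is finite and `Ш(E_D / K)[2^∞] = 0`.  This is the case exactly when the determinant of the
  matrix of the quadratic residue symbols of the prime divisors of `D` is not `0`.
* The proportion of the `D` for which `E_D(K)` is finite, `Ш(E_D / K)[2^∞] = 0`,
  `L(E_D / K, 1) ≠ 0` and `ρ` is a unit above `2` tends to `∏_{i ≥ 1} (1 - 2^{-i}) = 0.2887...`.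

The group `Sha` of the library is the group of the continuous cocycles of the absolute Galois group
of `K` with values in the points over an algebraic closure of `K` that are coboundaries at all the
places, modulo the coboundaries.  `NonsingRed v W P` says that `P` is the point at infinity or that
one of the partial derivatives of the equation at `P` is not in the maximal ideal.

Joint work: the descent, the converse, the local data, the periods, the values of the `L`-functions and
the `L`-function over `K` (`Pool/Agent/T2h16/KE`): helper1, helper3, helper7, helper9, helper20, helper33,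
helper59, helper64, helper75, helper88, helper91; the proportion (`Pool/Agent/T2h16/KD`): helper1,
helper11, helper26, helper30, helper31, helper62, helper64, helper75, helper93; the plan, the assembly and
the rest: helper16.
-/

set_option autoImplicit false

namespace Pool.Agent.Results.MP_e996df_nt.TwoPartTwistsX49

open NumberField IsDedekindDomain WeierstrassCurve
open Pool.Agent.TH841.NF.D (Sha)
open Pool.Agent.Y696 (NonsingRed)
open scoped Classical

/-- The curve `E_D : y² + x y = x³ - ((1 + 3 D) / 4) x² - 2 D² x - D³`. -/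
def curve {K : Type} [Field K] (D : K) : WeierstrassCurve K :=
  ⟨1, -(1 + 3 * D) / 4, 0, -2 * D ^ 2, -D ^ 3⟩

variable {K : Type} [Field K] [NumberField K]

/-- `D` is squarefree, `1` modulo `4`, and its norm is not divisible by `7`. -/
def InClass (D : 𝓞 K) : Prop := Squarefree D ∧ (4 : 𝓞 K) ∣ D - 1 ∧ ¬ (7 : ℤ) ∣ Algebra.norm ℤ D

/-- The equation `W` is minimal at every finite place `v`, the number `c v` is the index of the
group of the points of nonsingular reduction in `W(K_v)` (the Tamagawa number), and `c v = 1` for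
all but finitely many `v`. -/
def IsTamagawa (W : WeierstrassCurve K) (c : HeightOneSpectrum (𝓞 K) → ℕ) : Prop :=
  (∀ v : HeightOneSpectrum (𝓞 K),
    IsMinimal (v.adicCompletionIntegers K) (W.baseChange (v.adicCompletion K)) ∧
    ∃ H : AddSubgroup (W.baseChange (v.adicCompletion K)).toAffine.Point,
      (∀ P, P ∈ H ↔ NonsingRed Valued.v (W.baseChange (v.adicCompletion K)) P) ∧
      H.index = c v) ∧
  {v | c v ≠ 1}.Finite

/-- `E_D(K)` is finite and the `2`-primary part of `Ш(E_D / K)` is trivial. -/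
def FiniteAndTrivial (D : 𝓞 K) : Prop :=
  Finite (curve (D : K)).toAffine.Point ∧ ∀ (n : ℕ) (x : Sha (curve (D : K))), 2 ^ n • x = 0 → x = 0

/-- The order of the torsion subgroup of `E_D(K)`. -/
noncomputable def torsionOrder (D : 𝓞 K) : ℕ :=
  Nat.card (AddCommGroup.torsion (curve (D : K)).toAffine.Point)

/-- `Λ` is the period lattice of the curve `W` and of its invariant differential `dx / (2 y + a₁ x + a₃)`:
`g₂(Λ) = c₄ / 12` and `g₃(Λ) = c₆ / 216`. -/
def IsPeriodLattice (W : WeierstrassCurve ℂ) (Λ : PeriodPair) : Prop :=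
  12 * Λ.g₂ = W.c₄ ∧ 216 * Λ.g₃ = W.c₆

/-- The torsion subgroup of `E_D(K)` is finite, of order divisible by `4` and not by `8`; `Lf` is an
entire function equal to `L(E_D / K, s)` for `Re s > 3 / 2`; for every embedding `σ` of `K` and every
pair of periods `ω₁, ω₂` of the period lattice `Λ` of `E_D` (`A = |Im (conj ω₁ ω₂)|` is the area of a
period parallelogram, and `2 A` is the factor of `Ω(E_D)` at the complex place; such a `Λ` exists)
`Lf 1 = ρ · 2 A · ∏ c_v / (√|Δ(K)| |E_D(K)_tors|²)`, where `ρ` is integral at every valuation `v` of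
`ℂ` above `2`, and a unit if and only if `E_D(K)` is finite and `Ш(E_D / K)[2^∞] = 0`. -/
def Law (D : 𝓞 K) : Prop :=
  Finite (AddCommGroup.torsion (curve (D : K)).toAffine.Point) ∧
  padicValNat 2 (torsionOrder D) = 2 ∧
  ∃ (Lf : ℂ → ℂ) (c : HeightOneSpectrum (𝓞 K) → ℕ),
    Differentiable ℂ Lf ∧
    (∀ s : ℂ, 3 / 2 < s.re →
      LSeriesSummable ((fun n : ℤ => (n : ℂ)) ∘ (curve (D : K)).LFunction) s ∧
        Lf s = (curve (D : K)).LSeries s) ∧
    (FiniteAndTrivial D → Lf 1 ≠ 0) ∧
    IsTamagawa (curve (D : K)) c ∧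
    ∀ σ : K →+* ℂ, (∃ Λ, IsPeriodLattice ((curve (D : K)).map σ) Λ) ∧
      ∀ Λ, IsPeriodLattice ((curve (D : K)).map σ) Λ → ∃ ρ : ℂ,
        Lf 1 = ρ * (((2 * |((starRingEnd ℂ) Λ.ω₁ * Λ.ω₂).im| : ℝ) : ℂ) * ((∏ᶠ w, c w : ℕ) : ℂ) /
          (((Real.sqrt |(discr K : ℝ)| : ℝ) : ℂ) * (torsionOrder D : ℂ) ^ 2)) ∧
        ∀ (Γ : Type) [LinearOrderedCommGroupWithZero Γ] (v : Valuation ℂ Γ), v 2 < 1 →
          v ρ ≤ 1 ∧ (v ρ = 1 ↔ FiniteAndTrivial D)

/-- `1` if `x` is not a square modulo `π`, and `0` if it is. -/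
noncomputable def nonsquare (π x : 𝓞 K) : ZMod 2 :=
  if IsSquare (Ideal.Quotient.mk (Ideal.span {π}) x) then 0 else 1

/-- The matrix of the symbols of the primes `π i`, `√-7 = 2 a - 1`. -/
noncomputable def matrix (a : 𝓞 K) {n : ℕ} (π : Fin n → 𝓞 K) : Matrix (Fin n) (Fin n) (ZMod 2) :=
  Matrix.of fun i k =>
    if i = k then nonsquare (π i) (2 * a - 1) + ∑ l ∈ Finset.univ.erase i, nonsquare (π l) (π i)
    else nonsquare (π k) (π i)

/-- For both roots `a` of `a² = a - 2`: `D` is a product of primes `π i = 1` modulo `a²`, and for each such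
factorization `E_D(K)` is finite and `Ш(E_D / K)[2^∞] = 0` if and only if the matrix of the symbols of
the `π i` is nonsingular. -/
def Criterion (D : 𝓞 K) : Prop := ∀ a : 𝓞 K, a ^ 2 = a - 2 →
  (∃ (n : ℕ) (π : Fin n → 𝓞 K), (∀ i, Prime (π i) ∧ a ^ 2 ∣ π i - 1) ∧ D = ∏ i, π i) ∧
  ∀ (n : ℕ) (π : Fin n → 𝓞 K), (∀ i, Prime (π i) ∧ a ^ 2 ∣ π i - 1) → D = ∏ i, π i →
    (FiniteAndTrivial D ↔ (matrix a π).det ≠ 0)

theorem result (K : Type) [Field K] [NumberField K] (hK : Module.finrank ℚ K = 2) (δ : K)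
    (hδ : δ ^ 2 = -7) :
    (∃ c : ℝ, 0 < c ∧ ∃ X₀ : ℕ, ∀ X : ℕ, X₀ ≤ X →
      c * X ≤ ({D : 𝓞 K | Algebra.norm ℤ D ≤ X ∧ InClass D}.ncard : ℝ)) ∧
    (∀ D : 𝓞 K, InClass D → Law D ∧ Criterion D) ∧
    Filter.Tendsto (fun X : ℕ =>
      ({D : 𝓞 K | Algebra.norm ℤ D ≤ X ∧ InClass D ∧ FiniteAndTrivial D}.ncard : ℝ) /
        ({D : 𝓞 K | Algebra.norm ℤ D ≤ X ∧ InClass D}.ncard : ℝ)) Filter.atTop
      (nhds (∏' i : ℕ, (1 - (1 / 2 : ℝ) ^ (i + 1)))) ∧
    (0.2887 : ℝ) < ∏' i : ℕ, (1 - (1 / 2 : ℝ) ^ (i + 1)) ∧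
    ∏' i : ℕ, (1 - (1 / 2 : ℝ) ^ (i + 1)) < 0.2888 :=
  Pool.Agent.T2h16.KE.all K hK δ hδ

end Pool.Agent.Results.MP_e996df_nt.TwoPartTwistsX49
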